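import Pool.Agent.TH703.SST.Trees

/-!
# An efficient exact uniform sampler for spanning trees of simplicial complexes

One probabilistic Turing machine which, for every finite simplicial complex of any dimension
`d ≥ 1`, outputs each spanning tree with probability exactly `1 / (number of spanning trees)`, and
whose expected running time is polynomial in the number of faces.
-/

set_option autoImplicit false

namespace Pool.Agent.Results.MP_d8fb5e_lc.ExactSampler

open Pool.Agent.NPC Pool.Agent.H591R2 Pool.Agent.TH703.SST

/-- **Exact uniform sampling of simplicial spanning trees in polynomial expected time.** -/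
theorem result : ∃ (M : CoinMachine) (p : Polynomial ℕ), ∀ (L : List (List ℕ)) (d : ℕ),
    IsComplex L → IsDim L d → 1 ≤ d →
    0 < {Y | IsTree L d Y}.ncard ∧
    (∀ (w : List Bool) (c : M.Conf), M.run (M.start (bits L)) w = some c → c.l = none →
      ∃ Y, IsTree L d Y ∧ M.HaltsWith (bits L) w (bits Y)) ∧
    (∀ Y, IsTree L d Y →
      (∑' i : ℕ, ({w : List Bool | w.length = i ∧ M.HaltsWith (bits L) w (bits Y)}.ncard : ENNReal) /
        2 ^ i) = 1 / ({Y | IsTree L d Y}.ncard : ENNReal)) ∧
    M.expectedTime (bits L) ≤ (p.eval L.length : ℕ) :=
  Pool.Agent.NPC.T703.uniform_sampler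

end Pool.Agent.Results.MP_d8fb5e_lc.ExactSampler
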